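import Pool.Agent.Lib.MP_e005b4_ag.Ver.Seg
import Pool.Agent.Lib.MP_e005b4_ag.Sec.SegreVar

/-!
# The second Veronese embedding of a linear space
-/

set_option autoImplicit false

namespace Pool.Agent.Lib.MP_e005b4_ag

open MvPolynomial Matrix
open scoped LinearAlgebra.Projectivization

theorem sym_dot {N : ℕ} {M : Matrix (Fin N) (Fin N) ℂ} (hM : Mᵀ = M) (u v : Fin N → ℂ) :
    u ⬝ᵥ (M *ᵥ v) = v ⬝ᵥ (M *ᵥ u) := by
  rw [Matrix.dotProduct_mulVec, dotProduct_comm, ← Matrix.mulVec_transpose, hM]

theorem sym_ne {N : ℕ} {M : Matrix (Fin N) (Fin N) ℂ} (hM : Mᵀ = M) (h0 : M ≠ 0) :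
    ∃ β : Fin N → ℂ, β ⬝ᵥ (M *ᵥ β) ≠ 0 := by
  by_contra hno
  push Not at hno
  have h1 : ∀ u v : Fin N → ℂ, u ⬝ᵥ (M *ᵥ v) = 0 := by
    intro u v
    have h2 := hno (u + v)
    rw [Matrix.mulVec_add, add_dotProduct, dotProduct_add, dotProduct_add, hno u, hno v,
      sym_dot hM v u] at h2
    linear_combination (1 / 2 : ℂ) * h2
  apply h0
  apply Matrix.toLin'.injective
  rw [map_zero]
  refine LinearMap.ext fun a => ?_
  rw [Matrix.toLin'_apply, LinearMap.zero_apply]
  funext i
  have h2 := h1 (Pi.single i 1) a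
  rwa [single_one_dotProduct] at h2

theorem sym_decomp {N : ℕ} (W : Submodule ℂ (Fin N → ℂ)) (r : ℕ) :
    ∀ M : Matrix (Fin N) (Fin N) ℂ, Mᵀ = M → M.rank ≤ r → (∀ j, (fun i => M i j) ∈ W) →
      ∃ x : Fin r → Fin N → ℂ, (∀ k, x k ∈ W) ∧ M = ∑ k, vecMulVec (x k) (x k) := by
  induction r with
  | zero =>
    intro M _ hM _
    refine ⟨fun _ => 0, fun k => k.elim0, ?_⟩
    rw [Finset.univ_eq_empty, Finset.sum_empty]
    have h3 : Module.finrank ℂ (LinearMap.range M.mulVecLin) = 0 := Nat.le_zero.1 hM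
    have h4 : LinearMap.range M.mulVecLin = ⊥ := Submodule.finrank_eq_zero.1 h3
    have h5 : M.mulVecLin = 0 := LinearMap.range_eq_bot.1 h4
    exact Matrix.toLin'.map_eq_zero_iff.1 h5
  | succ r ih =>
    intro M hM hr hW
    by_cases h0 : M = 0
    · refine ⟨fun _ => 0, fun k => W.zero_mem, ?_⟩
      rw [h0]
      simp
    · obtain ⟨β, hβ⟩ := sym_ne hM h0
      obtain ⟨μ, hμ⟩ := IsAlgClosed.exists_pow_nat_eq ((β ⬝ᵥ (M *ᵥ β))⁻¹) (n := 2) (by norm_num)
      obtain ⟨x, hx⟩ : ∃ x, x = μ • (M *ᵥ β) := ⟨_, rfl⟩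
      have hxW : x ∈ W := by
        rw [hx]
        apply W.smul_mem
        have h1 : M *ᵥ β = ∑ j, β j • (fun i => M i j) := by
          funext i
          rw [Finset.sum_apply]
          show ∑ j, M i j * β j = ∑ j, β j * M i j
          exact Finset.sum_congr rfl fun j _ => mul_comm _ _
        rw [h1]
        exact W.sum_mem fun j _ => W.smul_mem _ (hW j)
      have hxw : ∀ w, x ⬝ᵥ w = μ * (β ⬝ᵥ (M *ᵥ w)) := by
        intro w
        rw [hx, smul_dotProduct, smul_eq_mul, dotProduct_comm, sym_dot hM]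
      have hval : ∀ w, (M - vecMulVec x x) *ᵥ w = M *ᵥ w - (x ⬝ᵥ w) • x := by
        intro w
        rw [Matrix.sub_mulVec, Matrix.vecMulVec_mulVec, op_smul_eq_smul]
      have hlt : LinearMap.ker M.mulVecLin < LinearMap.ker (M - vecMulVec x x).mulVecLin := by
        rw [SetLike.lt_iff_le_and_exists]
        refine ⟨fun w hw => ?_, β, ?_, fun hy => ?_⟩
        · rw [LinearMap.mem_ker, Matrix.mulVecLin_apply] at hw ⊢
          rw [hval, hxw, hw, dotProduct_zero, mul_zero, zero_smul, sub_zero]
        · rw [LinearMap.mem_ker, Matrix.mulVecLin_apply, hval, hxw, sub_eq_zero]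
          conv_rhs => rw [hx]
          rw [smul_smul]
          have h1 : μ * (β ⬝ᵥ (M *ᵥ β)) * μ = 1 := by
            have h2 : μ * (β ⬝ᵥ (M *ᵥ β)) * μ = μ ^ 2 * (β ⬝ᵥ (M *ᵥ β)) := by ring
            rw [h2, hμ, inv_mul_cancel₀ hβ]
          rw [h1, one_smul]
        · rw [LinearMap.mem_ker, Matrix.mulVecLin_apply] at hy
          rw [hy, dotProduct_zero] at hβ
          exact hβ rfl
      have h1 := Submodule.finrank_lt_finrank_of_lt hlt
      have h2 := M.mulVecLin.finrank_range_add_finrank_ker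
      have h3 := (M - vecMulVec x x).mulVecLin.finrank_range_add_finrank_ker
      have h4 : (M - vecMulVec x x).rank ≤ r := by
        unfold Matrix.rank at hr ⊢
        omega
      obtain ⟨y, hy, hsum⟩ := ih (M - vecMulVec x x) (by
        rw [Matrix.transpose_sub, hM]
        congr 1
        ext i j
        exact mul_comm _ _) h4 (fun j => by
        have h5 : (fun i => (M - vecMulVec x x) i j) = (fun i => M i j) - x j • x := by
          funext i
          show M i j - x i * x j = M i j - x j * x i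
          ring
        rw [h5]
        exact W.sub_mem (hW j) (W.smul_mem _ hxW))
      refine ⟨Fin.cons x y, fun k => ?_, ?_⟩
      · refine Fin.cases ?_ (fun k => ?_) k
        · exact hxW
        · exact hy k
      · rw [Fin.sum_univ_succ]
        simp only [Fin.cons_zero, Fin.cons_succ]
        rw [← hsum]
        abel

/-- The rank of a matrix of coordinates is lower semicontinuous. -/
theorem rank_le_of_closure_idx {ι : Type} [Fintype ι] {m n r : ℕ} (idx : Fin m → Fin n → ι)
    {T : Set (PSpace ι)} (hT : ∀ q ∈ T, (Matrix.of fun i j => q.rep (idx i j)).rank ≤ r)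
    {p : PSpace ι} (hp : p ∈ zariskiClosure T) :
    (Matrix.of fun i j => p.rep (idx i j)).rank ≤ r := by
  by_contra hno
  push Not at hno
  obtain ⟨P, Q, hPQ⟩ := exists_PQ (Matrix.of fun i j => p.rep (idx i j)) hno
  let A : Matrix (Fin (r + 1)) (Fin (r + 1)) (MvPolynomial ι ℂ) :=
    (P.map C : Matrix _ _ (MvPolynomial ι ℂ)) *
      (Matrix.of fun i j => X (idx i j) : Matrix (Fin m) (Fin n) (MvPolynomial ι ℂ)) *
      (Q.map C : Matrix _ _ (MvPolynomial ι ℂ))
  have hA : ∀ v : ι → ℂ, eval v A.det = (P * (Matrix.of fun i j => v (idx i j)) * Q).det := by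
    intro v
    rw [RingHom.map_det]
    congr 1
    simp only [A, RingHom.mapMatrix_apply, Matrix.map_mul]
    congr 2
    · ext i j
      simp
    · ext i j
      simp
    · ext i j
      simp
  have h1 := hp A.det (r + 1) (isHomogeneous_det A fun i0 j0 => ?_) fun q hq => ?_
  · rw [hA, hPQ, Matrix.det_one] at h1
    exact one_ne_zero h1
  · simp only [A, Matrix.mul_apply, Matrix.map_apply, Matrix.of_apply, Finset.sum_mul]
    refine IsHomogeneous.sum _ _ _ fun j _ => IsHomogeneous.sum _ _ _ fun i _ => ?_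
    have h2 := ((isHomogeneous_C ι (P i0 i)).mul
      (isHomogeneous_X ℂ (idx i j))).mul (isHomogeneous_C ι (Q j j0))
    simpa using h2
  · rw [hA]
    by_contra hdet
    have h3 : (P * (Matrix.of fun i j => q.rep (idx i j)) * Q).rank = r + 1 := by
      rw [Matrix.rank_of_isUnit _ ((Matrix.isUnit_iff_isUnit_det _).2 (isUnit_iff_ne_zero.2 hdet)),
        Fintype.card_fin]
    have h4 : (P * (Matrix.of fun i j => q.rep (idx i j)) * Q).rank ≤
        (Matrix.of fun i j => q.rep (idx i j)).rank :=
      (Matrix.rank_mul_le_left _ _).trans (Matrix.rank_mul_le_right _ _)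
    have h5 := hT q hq
    omega

theorem sum_two {N : ℕ} (f : Fin N → Fin N → ℂ) :
    ∑ α : Fin 2 → Fin N, f (α 0) (α 1) = ∑ i, ∑ j, f i j := by
  rw [← Fintype.sum_prod_type' f]
  exact Fintype.sum_equiv (finTwoArrowEquiv (Fin N)) _ _ (fun α => rfl)

/-- The second Veronese embedding of a linear space has the property. -/
theorem ver_two {N : ℕ} (W : Submodule ℂ (Fin N → ℂ)) {X : Set (PSpace (Fin 2 → Fin N))}
    (hX : ∀ w : (Fin 2 → Fin N) → ℂ, w ∈ cone X ↔ ∃ y ∈ W, ∀ α, w α = y (α 0) * y (α 1))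
    (p : PSpace (Fin 2 → Fin N)) : xRank X p = xBorderRank X p := by
  classical
  apply rank_eq_of_secant
  intro r q hq
  have hα : ∀ α : Fin 2 → Fin N, ![α 0, α 1] = α := by
    intro α
    funext s
    fin_cases s <;> rfl
  have hr : (Matrix.of fun i j : Fin N => q.rep ![i, j]).rank ≤ r := by
    refine rank_le_of_closure_idx (fun i j => ![i, j]) (fun q' hq' => ?_) hq
    obtain ⟨z, hz, hsum⟩ := exists_sum_of_mem_secantSet hq'
    rw [hsum]
    have h2 : ∀ s : Finset (Fin r),
        (Matrix.of fun i j : Fin N => (∑ k ∈ s, z k) ![i, j]).rank ≤ s.card := by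
      intro s
      induction s using Finset.induction_on with
      | empty =>
        have h3 : (Matrix.of fun i j : Fin N => (∑ k ∈ (∅ : Finset (Fin r)), z k) ![i, j]) = 0 := by
          ext i j
          simp
        rw [h3]
        simp
      | insert k s hk ih =>
        rw [Finset.card_insert_of_notMem hk]
        obtain ⟨y, -, hy⟩ := (hX _).1 (hz k)
        have h3 : (Matrix.of fun i j : Fin N => (∑ k ∈ insert k s, z k) ![i, j]) =
            vecMulVec y y + Matrix.of fun i j : Fin N => (∑ k ∈ s, z k) ![i, j] := by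
          ext i j
          rw [Matrix.of_apply, Matrix.add_apply, Matrix.of_apply, Finset.sum_insert hk, Pi.add_apply, hy]
          rfl
        rw [h3]
        refine (mat_rank_add_le _ _).trans ?_
        have h4 := Matrix.rank_vecMulVec_le y y
        omega
    have h3 := h2 Finset.univ
    rwa [Finset.card_univ, Fintype.card_fin] at h3
  -- linear conditions
  have hlin : ∀ ℓ : (Fin 2 → Fin N) → ℂ, (∀ y ∈ W, ∑ α, ℓ α * (y (α 0) * y (α 1)) = 0) →
      ∑ α, ℓ α * q.rep α = 0 := by
    intro ℓ hℓ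
    refine linear_of_closure ℓ (fun q' hq' => ?_) hq
    obtain ⟨z, hz, hsum⟩ := exists_sum_of_mem_secantSet hq'
    rw [hsum]
    simp only [Finset.sum_apply, Finset.mul_sum]
    rw [Finset.sum_comm]
    refine Finset.sum_eq_zero fun k _ => ?_
    obtain ⟨y, hyW, hy⟩ := (hX _).1 (hz k)
    rw [← hℓ y hyW]
    exact Finset.sum_congr rfl fun α _ => by rw [hy]
  have hsym : (Matrix.of fun i j : Fin N => q.rep ![i, j])ᵀ =
      Matrix.of fun i j : Fin N => q.rep ![i, j] := by
    ext i j
    rw [Matrix.transpose_apply, Matrix.of_apply, Matrix.of_apply]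
    have h3 := hlin (Pi.single ![j, i] 1 - Pi.single ![i, j] 1) (fun y _ => by
      simp only [Pi.sub_apply, sub_mul, Finset.sum_sub_distrib, Pi.single_apply, ite_mul, one_mul,
        zero_mul, Finset.sum_ite_eq', Finset.mem_univ, if_true]
      show y j * y i - y i * y j = 0
      ring)
    simp only [Pi.sub_apply, sub_mul, Finset.sum_sub_distrib, Pi.single_apply, ite_mul, one_mul,
        zero_mul, Finset.sum_ite_eq', Finset.mem_univ, if_true] at h3
    exact sub_eq_zero.1 h3
  have hcol : ∀ j, (fun i => (Matrix.of fun i j : Fin N => q.rep ![i, j]) i j) ∈ W := by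
    intro j
    by_contra hno
    obtain ⟨a, ha1, ha2⟩ := exists_functional hno
    apply ha2
    have h3 := hlin (fun α => if α 1 = j then a (α 0) else 0) (fun y hy => by
      have h4 : ∀ α : Fin 2 → Fin N, (if α 1 = j then a (α 0) else 0) * (y (α 0) * y (α 1)) =
          (a (α 0) * y (α 0)) * (if α 1 = j then y (α 1) else 0) := by
        intro α
        split_ifs
        · ring
        · ring
      simp only [h4]
      refine (sum_two (fun i j' => (a i * y i) * (if j' = j then y j' else 0))).trans ?_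
      simp only [← Finset.mul_sum, ← Finset.sum_mul]
      have h5 := ha1 y hy
      rw [dotProduct] at h5
      rw [h5, zero_mul])
    have h6 : ∑ α : Fin 2 → Fin N, (if α 1 = j then a (α 0) else 0) * q.rep α =
        ∑ i, ∑ j', (if j' = j then a i else 0) * q.rep ![i, j'] := by
      rw [← sum_two (fun i j' => (if j' = j then a i else 0) * q.rep ![i, j'])]
      exact Finset.sum_congr rfl fun α _ => by rw [hα]
    rw [h6] at h3
    simp only [ite_mul, zero_mul, Finset.sum_ite_eq', Finset.mem_univ, if_true] at h3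
    exact h3
  obtain ⟨x, hx, hsum⟩ := sym_decomp W r _ hsym hr hcol
  refine mem_secantSet_of_sum' (fun k α => x k (α 0) * x k (α 1)) (fun k => ?_) q ?_
  · rw [hX]
    exact ⟨x k, hx k, fun α => rfl⟩
  · funext α
    have h4 := congrFun (congrFun hsum (α 0)) (α 1)
    rw [Matrix.of_apply, hα, Matrix.sum_apply] at h4
    rw [Finset.sum_apply]
    exact h4

end Pool.Agent.Lib.MP_e005b4_ag
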