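import Pool.Agent.Lib.MP_e005b4_ag.Acl

/-!
# Derivations with prescribed values at a point

A vector tangent at a point `x` to all equations over `K` satisfied by `x` is the vector of values at
the coordinates of `x` of a derivation of `ℂ` over `K`.
-/

set_option autoImplicit false

namespace Pool.Agent.Lib.MP_e005b4_ag

open MvPolynomial
open scoped IntermediateField.algebraAdjoinAdjoin

theorem lift_abs {A B : Type} [CommRing A] [CommRing B] [Algebra A ℂ] [Algebra.FormallySmooth A ℂ]
    (g : B →+* ℂ) (hg : Function.Surjective g) (hsq : ∀ a b, g a = 0 → g b = 0 → a * b = 0)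
    (ψ : A →+* B)
    (h : ∀ a, g (ψ a) = algebraMap A ℂ a) :
    ∃ Φ : ℂ →+* B, (∀ c, g (Φ c) = c) ∧ ∀ a, Φ (algebraMap A ℂ a) = ψ a := by
  let _ : Algebra A B := ψ.toAlgebra
  have hker : IsNilpotent (RingHom.ker g) := by
    refine ⟨2, ?_⟩
    rw [pow_two, Ideal.zero_eq_bot, eq_bot_iff, Ideal.mul_le]
    intro a ha b hb
    rw [Ideal.mem_bot]
    exact hsq a b ha hb
  let g' : B →ₐ[A] ℂ := { g with commutes' := h }
  have hker' : IsNilpotent (RingHom.ker (g' : B →+* ℂ)) := hker
  let Φ : ℂ →ₐ[A] B := Algebra.FormallySmooth.liftOfSurjective (AlgHom.id A ℂ) g' hg hker'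
  refine ⟨Φ.toRingHom, fun c => ?_, fun a => ?_⟩
  · exact Algebra.FormallySmooth.liftOfSurjective_apply (AlgHom.id A ℂ) g' hg hker' c
  · exact Φ.commutes a

/-- The complex numbers are formally smooth over finitely generated subalgebras over a subfield. -/
theorem smooth_adjoin {K : Subfield ℂ} (S : Set ℂ) :
    Algebra.FormallySmooth (Algebra.adjoin K S) ℂ := by
  classical
  let A := Algebra.adjoin K S
  let F := IntermediateField.adjoin K S
  have h1 : Algebra.FormallyEtale A F := .of_isLocalization (nonZeroDivisors _)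
  obtain ⟨s, hs⟩ := exists_isTranscendenceBasis F ℂ
  have h2 : Algebra.IsAlgebraic (IntermediateField.adjoin F (Set.range ((↑) : s → ℂ))) ℂ := by
    constructor
    intro x
    have h3 : Algebra.IsAlgebraic (Algebra.adjoin F (Set.range ((↑) : s → ℂ))) ℂ := hs.isAlgebraic
    exact (h3.isAlgebraic x).extendScalars (FaithfulSMul.algebraMap_injective
      (Algebra.adjoin F (Set.range ((↑) : s → ℂ)))
      (IntermediateField.adjoin F (Set.range ((↑) : s → ℂ))))
  have h4 : Algebra.IsSeparable (IntermediateField.adjoin F (Set.range ((↑) : s → ℂ))) ℂ :=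
    inferInstance
  have h5 : Algebra.FormallySmooth F ℂ :=
    Algebra.FormallySmooth.of_algebraicIndependent_of_isSeparable hs.1
  exact .comp A F ℂ

variable {ι : Type} [Fintype ι]

/-- Evaluation at a point with a tangent vector. -/
noncomputable def dualEval {K : Subfield ℂ} (x v : ι → ℂ) :
    MvPolynomial ι K →+* TrivSqZeroExt ℂ ℂ :=
  eval₂Hom ((TrivSqZeroExt.inlHom ℂ ℂ).comp (algebraMap K ℂ))
    (fun i => TrivSqZeroExt.inl (x i) + TrivSqZeroExt.inr (v i))

theorem dualEval_fst {K : Subfield ℂ} (x v : ι → ℂ) (F : MvPolynomial ι K) :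
    (dualEval x v F).fst = aeval x F := by
  induction F using MvPolynomial.induction_on with
  | C a =>
    rw [dualEval, coe_eval₂Hom, eval₂_C, aeval_C]
    rfl
  | add p q hp hq => rw [map_add, map_add, TrivSqZeroExt.fst_add, hp, hq]
  | mul_X p k hp =>
    rw [map_mul, map_mul, TrivSqZeroExt.fst_mul, hp, aeval_X]
    congr 1
    rw [dualEval, coe_eval₂Hom, eval₂_X]
    simp

theorem dualEval_snd {K : Subfield ℂ} (x v : ι → ℂ) (F : MvPolynomial ι K) :
    (dualEval x v F).snd = ∑ i, aeval x (pderiv i F) * v i := by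
  classical
  induction F using MvPolynomial.induction_on with
  | C a =>
    rw [dualEval, coe_eval₂Hom, eval₂_C]
    simp
  | add p q hp hq =>
    rw [map_add, TrivSqZeroExt.snd_add, hp, hq, ← Finset.sum_add_distrib]
    refine Finset.sum_congr rfl fun i _ => ?_
    rw [map_add, map_add, add_mul]
  | mul_X p k hp =>
    have h1 : ∀ i, aeval x (pderiv i (p * MvPolynomial.X k)) * v i
        = x k * (aeval x (pderiv i p) * v i) + (aeval x p) * (if i = k then v i else 0) := by
      intro i
      rw [pderiv_mul, map_add, map_mul, map_mul, aeval_X, pderiv_X]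
      by_cases h : i = k
      · subst h
        simp
        ring
      · rw [Pi.single_eq_of_ne (Ne.symm h)]
        simp [h]
        ring
    simp only [h1, Finset.sum_add_distrib, ← Finset.mul_sum]
    rw [← hp, map_mul, TrivSqZeroExt.snd_mul, dualEval_fst]
    have h2 : (dualEval (K := K) x v (MvPolynomial.X k)) =
        TrivSqZeroExt.inl (x k) + TrivSqZeroExt.inr (v k) := by
      rw [dualEval, coe_eval₂Hom, eval₂_X]
    rw [h2]
    simp only [TrivSqZeroExt.snd_add, TrivSqZeroExt.snd_inl, TrivSqZeroExt.snd_inr, zero_add,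
      TrivSqZeroExt.fst_add, TrivSqZeroExt.fst_inl, TrivSqZeroExt.fst_inr, add_zero, smul_eq_mul,
      op_smul_eq_smul, Finset.sum_ite_eq', Finset.mem_univ, if_true]
    ring

theorem fst_sq_zero (a b : TrivSqZeroExt ℂ ℂ) (ha : a.fst = 0) (hb : b.fst = 0) : a * b = 0 := by
  apply TrivSqZeroExt.ext
  · rw [TrivSqZeroExt.fst_mul, ha, zero_mul, TrivSqZeroExt.fst_zero]
  · rw [TrivSqZeroExt.snd_mul, ha, hb, TrivSqZeroExt.snd_zero]
    simp

/-- A vector tangent at `x` to all equations over `K` satisfied by `x` is given by a derivation. -/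
theorem exists_der_tangent {K : Subfield ℂ} (x v : ι → ℂ)
    (h : ∀ F : MvPolynomial ι K, aeval x F = 0 → ∑ i, aeval x (pderiv i F) * v i = 0) :
    ∃ D : Derivation ℤ ℂ ℂ, (∀ a ∈ K, D a = 0) ∧ ∀ i, D (x i) = v i := by
  classical
  let A := Algebra.adjoin K (Set.range x)
  have hsm : Algebra.FormallySmooth A ℂ := smooth_adjoin _
  have hmem : ∀ F : MvPolynomial ι K, aeval x F ∈ A := by
    intro F
    have h1 : A = (aeval x : MvPolynomial ι K →ₐ[K] ℂ).range := Algebra.adjoin_range_eq_range_aeval K x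
    rw [h1]
    exact ⟨F, rfl⟩
  let π : MvPolynomial ι K →+* A := (aeval x : MvPolynomial ι K →ₐ[K] ℂ).toRingHom.codRestrict A hmem
  have hπ : ∀ F, ((π F : A) : ℂ) = aeval x F := fun F => rfl
  have hπs : Function.Surjective π := by
    rintro ⟨a, ha⟩
    have h1 : A = (aeval x : MvPolynomial ι K →ₐ[K] ℂ).range := Algebra.adjoin_range_eq_range_aeval K x
    rw [h1] at ha
    obtain ⟨F, hF⟩ := ha
    exact ⟨F, Subtype.ext hF⟩
  let ψ : A →+* TrivSqZeroExt ℂ ℂ := π.liftOfRightInverse (Function.surjInv hπs)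
    (Function.rightInverse_surjInv hπs) ⟨dualEval x v, by
      intro F hF
      rw [RingHom.mem_ker] at hF ⊢
      have h1 : aeval x F = 0 := by rw [← hπ, hF]; rfl
      apply TrivSqZeroExt.ext
      · rw [dualEval_fst, h1, TrivSqZeroExt.fst_zero]
      · rw [dualEval_snd, h F h1, TrivSqZeroExt.snd_zero]⟩
  have hψ : ∀ F, ψ (π F) = dualEval x v F := fun F =>
    π.liftOfRightInverse_comp_apply _ _ _ F
  obtain ⟨Φ, hΦ1, hΦ2⟩ := lift_abs (A := A) (TrivSqZeroExt.fstHom ℂ ℂ ℂ : TrivSqZeroExt ℂ ℂ →+* ℂ)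
    (fun c => ⟨TrivSqZeroExt.inl c, rfl⟩) fst_sq_zero ψ (fun a => by
      obtain ⟨F, rfl⟩ := hπs a
      rw [hψ]
      exact dualEval_fst x v F)
  have hfst : ∀ c, (Φ c).fst = c := hΦ1
  let D : Derivation ℤ ℂ ℂ := Derivation.mk'
    { toFun := fun c => (Φ c).snd
      map_add' := fun a b => by rw [map_add, TrivSqZeroExt.snd_add]
      map_smul' := fun n a => by
        rw [map_zsmul]
        simp } (fun a b => by
        change (Φ (a * b)).snd = a • (Φ b).snd + b • (Φ a).snd
        rw [map_mul, TrivSqZeroExt.snd_mul, hfst, hfst, op_smul_eq_smul])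
  have hD : ∀ c, D c = (Φ c).snd := fun c => rfl
  refine ⟨D, fun a ha => ?_, fun i => ?_⟩
  · have h1 := hΦ2 (π (MvPolynomial.C ⟨a, ha⟩))
    rw [hψ] at h1
    have h2 : (algebraMap A ℂ) (π (MvPolynomial.C ⟨a, ha⟩)) = a := by
      change ((π (MvPolynomial.C ⟨a, ha⟩) : A) : ℂ) = a
      rw [hπ, aeval_C]
      rfl
    rw [h2] at h1
    rw [hD, h1, dualEval_snd]
    simp
  · have h1 := hΦ2 (π (MvPolynomial.X i))
    rw [hψ] at h1
    have h2 : (algebraMap A ℂ) (π (MvPolynomial.X i)) = x i := by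
      change ((π (MvPolynomial.X i) : A) : ℂ) = x i
      rw [hπ, aeval_X]
    rw [h2] at h1
    rw [hD, h1, dualEval, coe_eval₂Hom, eval₂_X]
    simp

end Pool.Agent.Lib.MP_e005b4_ag
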