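import Pool.Agent.Lib.MP_e005b4_ag.Ver.SegMain

/-!
# The factors of a Segre product with the property have the property
-/

set_option autoImplicit false

namespace Pool.Agent.Lib.MP_e005b4_ag

open MvPolynomial
open scoped LinearAlgebra.Projectivization

set_option linter.unusedSectionVars false

variable {k : ℕ} {n : Fin k → ℕ}

theorem linear_prop {ι : Type} [Fintype ι] {Y : Set (PSpace ι)} (hY : IsZariskiClosed Y)
    (hne : Y.Nonempty) (hlin : IsLinearSpace Y) (p : PSpace ι) : xRank Y p = xBorderRank Y p := by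
  apply rank_eq_of_secant
  intro r q hq
  rcases Nat.eq_zero_or_pos r with rfl | hr
  · rw [secantVariety_zero] at hq
    exact hq.elim
  · obtain ⟨W, hW⟩ := hlin
    have h1 : secantSet Y r ⊆ Y := by
      rintro q' ⟨x, hx, hle⟩
      rw [hW]
      exact hle.trans (iSup_le fun i => (hW _).1 (hx i))
    have h2 : q ∈ Y := by
      rw [← zariskiClosure_of_closed hY]
      exact fun F d hF hv => hq F d hF fun q' hq' => hv q' (h1 hq')
    rw [← secantSet_one Y] at h2
    exact secantSet_mono hne hr h2

/-- Substituting linear forms with one variable keeps homogeneity. -/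
theorem hom_subst {ι κ : Type} {F : MvPolynomial ι ℂ} {d : ℕ} (hF : F.IsHomogeneous d)
    (e : ι → ℂ) (f : ι → κ) : (bind₁ (fun i => C (e i) * X (f i)) F).IsHomogeneous d := by
  have h1 := hF.aeval (fun i => C (e i) * X (f i)) (n := 1) (fun i => by
    have h2 := (isHomogeneous_C κ (e i)).mul (isHomogeneous_X ℂ (f i))
    rwa [zero_add] at h2)
  rwa [one_mul] at h1

/-- The factors of a Segre product with the property have the property. -/
theorem factor_prop {m : ℕ} {c : Fin m → Fin k} (hc : Function.Injective c)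
    {Y : ∀ j, Set (PSpace (Fin (n j)))} (hne : ∀ j, (Y j).Nonempty)
    (hprop : ∀ p, xRank (segVer c Y) p = xBorderRank (segVer c Y) p) (s0 : Fin m)
    (q : PSpace (Fin (n (c s0)))) : xRank (Y (c s0)) q = xBorderRank (Y (c s0)) q := by
  classical
  have hm : 0 < m := by
    rcases Nat.eq_zero_or_pos m with h | h
    · subst h
      exact s0.elim0
    · exact h
  have hneX := segVer_nonempty hm (c := c) hne
  choose p hp using hne
  have hex : ∀ j, ∃ i, (p j).rep i ≠ 0 := fun j => Function.ne_iff.mp (p j).rep_nonzero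
  choose l hl using hex
  -- the factor of the other slots
  let E : (∀ s, Fin (n (c s))) → ℂ := fun α => ∏ s ∈ Finset.univ.erase s0, (p (c s)).rep (α s)
  have hτ : ∀ (u : ∀ j, Fin (n j) → ℂ) (v : Fin (n (c s0)) → ℂ) (α : ∀ s, Fin (n (c s))),
      tens c (Function.update u (c s0) v) α =
        v (α s0) * ∏ s ∈ Finset.univ.erase s0, u (c s) (α s) := by
    intro u v α
    unfold tens
    rw [← Finset.mul_prod_erase Finset.univ _ (Finset.mem_univ s0), Function.update_self]
    congr 1
    refine Finset.prod_congr rfl fun s hs => ?_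
    rw [Function.update_of_ne]
    exact fun h => (Finset.ne_of_mem_erase hs) (hc h)
  have hcone : ∀ v ∈ cone (Y (c s0)), (fun α => E α * v (α s0)) ∈ cone (segVer c Y) := by
    intro v hv
    rw [mem_cone_segVer hm]
    refine ⟨Function.update (fun j => (p j).rep) (c s0) v, fun j => ?_, fun α => ?_⟩
    · by_cases hj : j = c s0
      · subst hj
        rw [Function.update_self]
        exact hv
      · rw [Function.update_of_ne hj]
        exact rep_mem_cone.2 (hp j)
    · have h1 := hτ (fun j => (p j).rep) v α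
      unfold tens at h1
      rw [h1, mul_comm]
  let a : Fin (n (c s0)) → ∀ s, Fin (n (c s)) := fun i => Function.update (fun s => l (c s)) s0 i
  have ha0 : ∀ i, a i s0 = i := fun i => Function.update_self _ _ _
  have ha : ∀ i s, s ∈ Finset.univ.erase s0 → a i s = l (c s) := fun i s hs =>
    Function.update_of_ne (Finset.ne_of_mem_erase hs) _ _
  have hEa : ∀ i, E (a i) = ∏ s ∈ Finset.univ.erase s0, (p (c s)).rep (l (c s)) := by
    intro i
    exact Finset.prod_congr rfl fun s hs => by rw [ha i s hs]
  obtain ⟨U, hU⟩ : ∃ U, U = ∏ s ∈ Finset.univ.erase s0, (p (c s)).rep (l (c s)) := ⟨_, rfl⟩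
  have hU0 : U ≠ 0 := by
    rw [hU, Finset.prod_ne_zero_iff]
    exact fun s _ => hl _
  have hEU : ∀ i, E (a i) = U := fun i => by rw [hEa, hU]
  have hnz : ∀ v : Fin (n (c s0)) → ℂ, v ≠ 0 → (fun α => E α * v (α s0)) ≠ 0 := by
    intro v hv h
    apply hv
    funext i
    have h1 := congrFun h (a i)
    simp only [Pi.zero_apply] at h1
    rw [hEU, ha0] at h1
    exact (mul_eq_zero.1 h1).resolve_left hU0
  apply rank_eq_of_secant
  intro r q hq
  have h1 : Projectivization.mk ℂ _ (hnz q.rep q.rep_nonzero) ∈ secantVariety (segVer c Y) r := by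
    intro F d hF hv
    rw [eval_rep_iff hF]
    have hev : ∀ v : Fin (n (c s0)) → ℂ, eval v (bind₁ (fun α => C (E α) * X (α s0)) F) =
        eval (fun α => E α * v (α s0)) F := by
      intro v
      have h2 : eval v (bind₁ (fun α => C (E α) * X (α s0)) F) =
          eval (fun α => eval v (C (E α) * X (α s0))) F :=
        MvPolynomial.eval₂Hom_bind₁ (RingHom.id ℂ) _ _ _
      rw [h2]
      simp only [map_mul, eval_C, eval_X]
    rw [← hev]
    refine hq _ d (hom_subst hF E fun α => α s0) fun q' hq' => ?_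
    rw [hev, ← eval_rep_iff hF _ (hnz q'.rep q'.rep_nonzero)]
    apply hv
    obtain ⟨z, hz, hsum⟩ := exists_sum_of_mem_secantSet hq'
    obtain ⟨e, he, hrep⟩ := rep_eq _ (hnz q'.rep q'.rep_nonzero)
    refine mem_secantSet_of_sum' (fun i => e • fun α => E α * z i (α s0))
      (fun i => smul_mem_cone (hcone _ (hz i)) _) _ ?_
    rw [hrep]
    funext α
    rw [Pi.smul_apply, Finset.sum_apply]
    simp only [Pi.smul_apply, smul_eq_mul]
    rw [hsum, Finset.sum_apply, Finset.mul_sum, Finset.mul_sum]
  have h2 : xRank (segVer c Y) (Projectivization.mk ℂ _ (hnz q.rep q.rep_nonzero)) ≤ (r : ℕ) := by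
    rw [hprop]
    exact (xBorderRank_le_iff hneX).2 h1
  obtain ⟨z, hz, hsum⟩ := exists_sum_of_mem_secantSet ((xRank_le_iff hneX).1 h2)
  obtain ⟨e, he, hrep⟩ := rep_eq _ (hnz q.rep q.rep_nonzero)
  choose b hb hbz using fun i => (mem_cone_segVer hm).1 (hz i)
  refine mem_secantSet_of_sum' (fun i => ((∏ s ∈ Finset.univ.erase s0, b i (c s) (l (c s))) / (e * U)) •
    b i (c s0)) (fun i => smul_mem_cone (hb i _) _) _ ?_
  funext i'
  have h3 := congrFun (hrep.symm.trans hsum) (a i')
  rw [Pi.smul_apply, Finset.sum_apply, smul_eq_mul] at h3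
  simp only [hbz] at h3
  rw [hEU, ha0] at h3
  have h4 : ∀ i, ∏ s, b i (c s) (a i' s) = b i (c s0) i' *
      ∏ s ∈ Finset.univ.erase s0, b i (c s) (l (c s)) := by
    intro i
    rw [← Finset.mul_prod_erase Finset.univ _ (Finset.mem_univ s0), ha0]
    congr 1
    exact Finset.prod_congr rfl fun s hs => by rw [ha i' s hs]
  simp only [h4] at h3
  rw [Finset.sum_apply]
  simp only [Pi.smul_apply, smul_eq_mul]
  have h5 : q.rep i' = (e * (U * q.rep i')) / (e * U) := by
    field_simp
  rw [h5, h3, Finset.sum_div]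
  exact Finset.sum_congr rfl fun i _ => by ring

end Pool.Agent.Lib.MP_e005b4_ag
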