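import Pool.Agent.Lib.MP_e005b4_ag.Rational

/-!
# Generic points
-/

set_option autoImplicit false

namespace Pool.Agent.Lib.MP_e005b4_ag

open MvPolynomial
open scoped LinearAlgebra.Projectivization

/-- A prime ideal over a countable field has a generic zero in the complex numbers. -/
theorem exists_generic {K : Subfield ℂ} (hKc : (K : Set ℂ).Countable) {ι : Type} [Finite ι]
    (P : Ideal (MvPolynomial ι K)) [hP : P.IsPrime] :
    ∃ x : ι → ℂ, ∀ F : MvPolynomial ι K, aeval x F = 0 ↔ F ∈ P := by
  classical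
  let A := MvPolynomial ι K ⧸ P
  let L := FractionRing A
  have hloc : Algebra.EssFiniteType A L := Algebra.EssFiniteType.of_isLocalization _ (nonZeroDivisors A)
  have hess : Algebra.EssFiniteType K L := Algebra.EssFiniteType.comp K A L
  obtain ⟨s, hs⟩ := exists_finset_isTranscendenceBasis K L
  obtain ⟨t, ht⟩ := exists_isTranscendenceBasis K ℂ
  have hcard := IsAlgClosed.cardinal_eq_cardinal_transcendence_basis_of_aleph0_lt' _ ht
    (Cardinal.le_aleph0_iff_set_countable.2 hKc)
    (by rw [Cardinal.mk_complex]; exact Cardinal.aleph0_lt_continuum)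
  have hinf : Infinite t := by
    rw [Cardinal.infinite_iff, ← hcard, Cardinal.mk_complex]
    exact Cardinal.aleph0_lt_continuum.le
  let e : s ↪ t := (Function.Embedding.trans (Finset.equivFin s).toEmbedding
    (Fin.valEmbedding.trans (Infinite.natEmbedding t)))
  let w : s → ℂ := fun i => (e i : ℂ)
  have hw : AlgebraicIndependent K w := ht.1.comp e e.injective
  let v : s → L := (↑)
  have hv : AlgebraicIndependent K v := hs.1
  let A1 := Algebra.adjoin K (Set.range v)
  have hA1 : Algebra.IsAlgebraic A1 L := hs.isAlgebraic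
  let φ : A1 →ₐ[K] ℂ := (aeval w : MvPolynomial s K →ₐ[K] ℂ).comp hv.aevalEquiv.symm.toAlgHom
  have hφ : Function.Injective φ := by
    intro a b hab
    have h1 : aeval w (hv.aevalEquiv.symm a) = aeval w (hv.aevalEquiv.symm b) := hab
    exact hv.aevalEquiv.symm.injective (hw h1)
  let _ : Algebra A1 ℂ := φ.toRingHom.toAlgebra
  have hf1 : FaithfulSMul A1 ℂ := (faithfulSMul_iff_algebraMap_injective _ _).mpr hφ
  have ht1 : Module.IsTorsionFree A1 ℂ := FaithfulSMul.to_isTorsionFree _ _
  have ht2 : Module.IsTorsionFree A1 L := FaithfulSMul.to_isTorsionFree _ _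
  let Φ : L →ₐ[A1] ℂ := IsAlgClosed.lift
  let Ψ : L →ₐ[K] ℂ := { Φ.toRingHom with
    commutes' := by
      intro a
      have h1 : algebraMap K L a = algebraMap A1 L (algebraMap K A1 a) := rfl
      change Φ (algebraMap K L a) = _
      rw [h1, Φ.commutes]
      exact φ.commutes a }
  let Θ : MvPolynomial ι K →ₐ[K] ℂ := (Ψ.comp (IsScalarTower.toAlgHom K A L)).comp
    (Ideal.Quotient.mkₐ K P)
  refine ⟨fun i => Θ (MvPolynomial.X i), fun F => ?_⟩
  have h1 : (aeval fun i => Θ (MvPolynomial.X i) : MvPolynomial ι K →ₐ[K] ℂ) = Θ := by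
    apply MvPolynomial.algHom_ext
    intro i
    rw [aeval_X]
  rw [h1]
  change Ψ (algebraMap A L (Ideal.Quotient.mk P F)) = 0 ↔ _
  rw [map_eq_zero_iff Ψ (RingHom.injective Ψ.toRingHom),
    map_eq_zero_iff _ (IsFractionRing.injective A L), Ideal.Quotient.eq_zero_iff_mem]

theorem vIdeal_prime {ι : Type} [Fintype ι] {Y : Set (PSpace ι)} (hY : IsIrred Y) :
    (vIdeal Y).IsPrime := by
  classical
  let _ : GradedRing (homogeneousSubmodule ι ℂ) := MvPolynomial.gradedAlgebra
  have hhom : (vIdeal Y).IsHomogeneous (homogeneousSubmodule ι ℂ) := by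
    intro i F hF
    have h1 := homogeneousComponent_mem hF i
    have h2 : ((DirectSum.decompose (homogeneousSubmodule ι ℂ) F i : homogeneousSubmodule ι ℂ i) :
        MvPolynomial ι ℂ) = homogeneousComponent i F := decomposition.decompose'_apply F i
    rw [h2]
    exact h1
  refine hhom.isPrime_of_homogeneous_mem_or_mem ?_ ?_
  · intro h
    have h1 : (1 : MvPolynomial ι ℂ) ∈ vIdeal Y := by rw [h]; trivial
    rw [mem_vIdeal] at h1
    have h2 := h1 0 (zero_mem_cone Y)
    simp at h2
  · rintro F G ⟨d, hF⟩ ⟨e, hG⟩ hFG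
    rw [mem_vIdeal] at hFG
    rcases hY.2 F G d e hF hG (fun p hp => by
      rw [← map_mul]
      exact hFG p.rep (rep_mem_cone.2 hp)) with h | h
    · left
      exact mem_vIdeal.2 (vanish_on_cone hY.1 hF h)
    · right
      exact mem_vIdeal.2 (vanish_on_cone hY.1 hG h)

end Pool.Agent.Lib.MP_e005b4_ag
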