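import Pool.Agent.Lib.MP_e005b4_ag.Key

/-!
# Subspaces stable under derivations are rational
-/

set_option autoImplicit false

namespace Pool.Agent.Lib.MP_e005b4_ag

open MvPolynomial

variable {ι : Type} [Fintype ι]

/-- A subspace stable under all derivations which kill `K`. -/
def Stable (K : Subfield ℂ) (W : Submodule ℂ (ι → ℂ)) : Prop :=
  ∀ D : Derivation ℤ ℂ ℂ, (∀ a ∈ K, D a = 0) → ∀ w ∈ W, (fun i => D (w i)) ∈ W

theorem stable_span {K : Subfield ℂ} (hK : Closed K) (N : ℕ) :
    ∀ W : Submodule ℂ (ι → ℂ), Module.finrank ℂ W ≤ N → Stable K W →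
      W ≤ Submodule.span ℂ {w | w ∈ W ∧ ∀ i, w i ∈ K} := by
  classical
  induction N with
  | zero =>
    intro W hN _
    have h1 : W = ⊥ := Submodule.finrank_eq_zero.1 (Nat.le_zero.1 hN)
    rw [h1]
    exact bot_le
  | succ N ih =>
    intro W hN hW
    by_cases hbot : W = ⊥
    · rw [hbot]
      exact bot_le
    obtain ⟨w0, hw0, hw0'⟩ := (Submodule.ne_bot_iff W).1 hbot
    -- a vector of minimal support
    let S : Set ℕ := {m | ∃ w ∈ W, w ≠ 0 ∧ (Finset.univ.filter fun i => w i ≠ 0).card = m}
    have hS : S.Nonempty := ⟨_, w0, hw0, hw0', rfl⟩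
    obtain ⟨w1, hw1, hw1', hm⟩ := Nat.sInf_mem hS
    obtain ⟨i0, hi0⟩ := Function.ne_iff.mp hw1'
    have hi0' : w1 i0 ≠ 0 := hi0
    obtain ⟨w, hw⟩ : ∃ w, w = (w1 i0)⁻¹ • w1 := ⟨_, rfl⟩
    have hwW : w ∈ W := by rw [hw]; exact W.smul_mem _ hw1
    have hwi0 : w i0 = 1 := by
      rw [hw, Pi.smul_apply, smul_eq_mul, inv_mul_cancel₀ hi0']
    have hsupp : ∀ i, w i ≠ 0 → w1 i ≠ 0 := by
      intro i h h'
      apply h
      rw [hw, Pi.smul_apply, h', smul_zero]
    have hwK : ∀ i, w i ∈ K := by
      intro i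
      by_contra hi
      obtain ⟨D, hD, hDi⟩ := exists_der hK hi
      have h1 : (fun i => D (w i)) ≠ 0 := by
        intro h
        have h2 := congrFun h i
        simp only [Pi.zero_apply] at h2
        rw [hDi] at h2
        exact one_ne_zero h2
      have h2 : (Finset.univ.filter fun i => D (w i) ≠ 0).card ∈ S :=
        ⟨_, hW D hD w hwW, h1, rfl⟩
      have h3 : (Finset.univ.filter fun i => D (w i) ≠ 0).card <
          (Finset.univ.filter fun i => w1 i ≠ 0).card := by
        apply Finset.card_lt_card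
        rw [Finset.ssubset_iff_of_subset]
        · refine ⟨i0, by simpa using hi0', ?_⟩
          simp [hwi0]
        · intro j hj
          rw [Finset.mem_filter] at hj ⊢
          refine ⟨Finset.mem_univ _, hsupp j ?_⟩
          intro h
          apply hj.2
          rw [h, map_zero]
      have h4 := Nat.sInf_le h2
      omega
    -- the complement
    let π : (ι → ℂ) →ₗ[ℂ] ℂ := LinearMap.proj i0
    have hlt : W ⊓ LinearMap.ker π < W := by
      rw [SetLike.lt_iff_le_and_exists]
      refine ⟨inf_le_left, w, hwW, fun h => ?_⟩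
      have h1 : w i0 = 0 := h.2
      rw [hwi0] at h1
      exact one_ne_zero h1
    have hfr := Submodule.finrank_lt_finrank_of_lt hlt
    have hst : Stable K (W ⊓ LinearMap.ker π) := by
      intro D hD u hu
      refine ⟨hW D hD u hu.1, ?_⟩
      have h1 : u i0 = 0 := hu.2
      change D (u i0) = 0
      rw [h1, map_zero]
    have h1 := ih (W ⊓ LinearMap.ker π) (by omega) hst
    intro u hu
    have h2 : u - u i0 • w ∈ W ⊓ LinearMap.ker π := by
      refine ⟨W.sub_mem hu (W.smul_mem _ hwW), ?_⟩
      change (u - u i0 • w) i0 = 0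
      rw [Pi.sub_apply, Pi.smul_apply, hwi0, smul_eq_mul, mul_one, sub_self]
    have h3 : u = (u - u i0 • w) + u i0 • w := by abel
    rw [h3]
    refine Submodule.add_mem _ ?_ (Submodule.smul_mem _ _ (Submodule.subset_span ⟨hwW, hwK⟩))
    refine Submodule.span_mono ?_ (h1 h2)
    rintro x ⟨hx, hx'⟩
    exact ⟨hx.1, hx'⟩

/-- A stable subspace is cut out by linear forms with coefficients in `K`. -/
theorem stable_separate {K : Subfield ℂ} (hK : Closed K) {W : Submodule ℂ (ι → ℂ)}
    (hW : Stable K W) {z : ι → ℂ} (hz : z ∉ W) :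
    ∃ a : ι → K, (∀ w ∈ W, ∑ i, (a i : ℂ) * w i = 0) ∧ ∑ i, (a i : ℂ) * z i ≠ 0 := by
  classical
  let V : Submodule ℂ (ι → ℂ) :=
    { carrier := {a | ∀ w ∈ W, ∑ i, a i * w i = 0}
      add_mem' := by
        intro a b ha hb w hw
        simp only [Pi.add_apply, add_mul, Finset.sum_add_distrib, ha w hw, hb w hw, add_zero]
      zero_mem' := by
        intro w _
        simp
      smul_mem' := by
        intro c a ha w hw
        simp only [Pi.smul_apply, smul_eq_mul, mul_assoc, ← Finset.mul_sum, ha w hw, mul_zero] }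
  have hV : Stable K V := by
    intro D hD a ha w hw
    have h1 : D (∑ i, a i * w i) = 0 := by rw [ha w hw, map_zero]
    rw [map_sum] at h1
    simp only [Derivation.leibniz, smul_eq_mul, Finset.sum_add_distrib] at h1
    have h2 := ha _ (hW D hD w hw)
    rw [h2, zero_add] at h1
    rw [← h1]
    exact Finset.sum_congr rfl fun i _ => mul_comm _ _
  obtain ⟨a, ha1, ha2⟩ := exists_functional hz
  have haV : a ∈ V := ha1
  have h3 := stable_span hK _ V le_rfl hV haV
  by_contra hno
  push Not at hno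
  have h4 : ∀ b ∈ Submodule.span ℂ {w | w ∈ V ∧ ∀ i, w i ∈ K}, ∑ i, b i * z i = 0 := by
    intro b hb
    induction hb using Submodule.span_induction with
    | mem w hw => exact hno (fun i => ⟨w i, hw.2 i⟩) hw.1
    | zero => simp
    | add b c _ _ hb hc =>
      simp only [Pi.add_apply, add_mul, Finset.sum_add_distrib, hb, hc, add_zero]
    | smul c b _ hb =>
      simp only [Pi.smul_apply, smul_eq_mul, mul_assoc, ← Finset.mul_sum, hb, mul_zero]
  exact ha2 (h4 a h3)

end Pool.Agent.Lib.MP_e005b4_ag
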