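import Pool.Agent.Lib.MP_e005b4_ag.Ver.Der
import Pool.Agent.Lib.MP_e005b4_ag.Ver.Gen
import Pool.Agent.Lib.MP_e005b4_ag.Ver.Rat
import Pool.Agent.Lib.MP_e005b4_ag.TangentDegenerate

/-!
# Varieties containing all their tangent lines are linear
-/

set_option autoImplicit false

namespace Pool.Agent.Lib.MP_e005b4_ag

open MvPolynomial
open scoped LinearAlgebra.Projectivization

set_option linter.unusedSectionVars false

variable {ι : Type} [Fintype ι]

/-- `Y` is a linear subspace of the projective space. -/
def IsLinearSpace (Y : Set (PSpace ι)) : Prop :=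
  ∃ W : Submodule ℂ (ι → ℂ), ∀ p : PSpace ι, p ∈ Y ↔ p.submodule ≤ W

/-- The derivative of a polynomial along a line on which it vanishes is zero. -/
theorem deriv_line (G : MvPolynomial ι ℂ) (x v : ι → ℂ)
    (h : ∀ t : ℂ, eval (fun i => x i + t * v i) G = 0) :
    ∑ i, eval x (pderiv i G) * v i = 0 := by
  classical
  let q : ι → Polynomial ℂ := fun i => Polynomial.C (x i) + Polynomial.X * Polynomial.C (v i)
  have h1 : ∀ (F : MvPolynomial ι ℂ) (t : ℂ), (MvPolynomial.aeval q F).eval t =
      eval (fun i => x i + t * v i) F := by
    intro F t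
    have h2 := MvPolynomial.eval₂_comp_left (Polynomial.evalRingHom t) (algebraMap ℂ (Polynomial ℂ)) q F
    rw [MvPolynomial.aeval_def]
    rw [Polynomial.coe_evalRingHom] at h2
    rw [h2]
    have h3 : (Polynomial.evalRingHom t).comp (algebraMap ℂ (Polynomial ℂ)) = RingHom.id ℂ := by
      ext x
      simp
    rw [h3]
    have h4 : (Polynomial.eval t ∘ q) = fun i => x i + t * v i := by
      funext i
      simp only [q, Function.comp_apply, Polynomial.eval_add, Polynomial.eval_mul, Polynomial.eval_C,
        Polynomial.eval_X]
    rw [h4]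
    rfl
  have h2 : ∀ F : MvPolynomial ι ℂ, (Polynomial.derivative (MvPolynomial.aeval q F)).eval 0 =
      ∑ i, eval x (pderiv i F) * v i := by
    intro F
    induction F using MvPolynomial.induction_on with
    | C a => simp
    | add p r hp hr =>
      rw [map_add, Polynomial.derivative_add, Polynomial.eval_add, hp, hr, ← Finset.sum_add_distrib]
      refine Finset.sum_congr rfl fun i _ => ?_
      rw [map_add, map_add, add_mul]
    | mul_X p k hp =>
      have h3 : ∀ i, eval x (pderiv i (p * MvPolynomial.X k)) * v i
          = x k * (eval x (pderiv i p) * v i) + (eval x p) * (if i = k then v i else 0) := by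
        intro i
        rw [pderiv_mul, map_add, map_mul, map_mul, eval_X, pderiv_X]
        by_cases h : i = k
        · subst h
          simp
          ring
        · rw [Pi.single_eq_of_ne (Ne.symm h)]
          simp [h]
          ring
      simp only [h3, Finset.sum_add_distrib, ← Finset.mul_sum]
      rw [← hp, map_mul, aeval_X, Polynomial.derivative_mul, Polynomial.eval_add, Polynomial.eval_mul,
        Polynomial.eval_mul, h1]
      have h4 : (fun i => x i + 0 * v i) = x := by
        funext i
        ring
      rw [h4]
      simp only [q, Polynomial.derivative_add, Polynomial.derivative_mul, Polynomial.derivative_X,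
        Polynomial.derivative_C, Polynomial.eval_add, Polynomial.eval_mul, Polynomial.eval_C,
        Polynomial.eval_X, Polynomial.eval_zero, Polynomial.eval_one, Finset.sum_ite_eq',
        Finset.mem_univ, if_true]
      ring
  rw [← h2]
  have h3 : MvPolynomial.aeval q G = 0 := by
    apply Polynomial.funext
    intro t
    rw [h1, h t, Polynomial.eval_zero]
  rw [h3]
  simp

/-- A generic point of a projective variety over a countable field of definition. -/
theorem exists_generic_point {Y : Set (PSpace ι)} (hY : IsProjectiveVariety Y) {K : Subfield ℂ}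
    (hKc : (K : Set ℂ).Countable) (hdef : DefinedOver K Y) :
    ∃ x ∈ cone Y, ∀ F : MvPolynomial ι K, aeval x F = 0 → up F ∈ vIdeal Y := by
  have hp := vIdeal_prime hY.2
  let P : Ideal (MvPolynomial ι K) := (vIdeal Y).comap (MvPolynomial.map (algebraMap K ℂ))
  have hP : P.IsPrime := Ideal.comap_isPrime _ _
  obtain ⟨x, hx⟩ := exists_generic hKc P
  refine ⟨x, mem_cone_of_vIdeal hY.1 hY.2.1 ?_, fun F hF => (hx F).1 hF⟩
  obtain ⟨S, hS⟩ := hdef
  intro F hF
  rw [← hS] at hF
  have h1 : Ideal.span (up '' S) ≤ RingHom.ker (eval x) := by
    rw [Ideal.span_le]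
    rintro _ ⟨s, hs, rfl⟩
    change eval x (up s) = 0
    rw [eval_up_eq_aeval]
    apply (hx s).2
    change up s ∈ vIdeal Y
    rw [← hS]
    exact Ideal.subset_span ⟨s, hs, rfl⟩
  exact h1 hF

/-- A projective variety which contains the line through every point in the direction of the
derivative of its coordinates, for all derivations over the field of definition, is a linear
subspace. -/
theorem linear_of_tangents {Y : Set (PSpace ι)} (hY : IsProjectiveVariety Y) {K : Subfield ℂ}
    (hK : Closed K) (hKc : (K : Set ℂ).Countable) (hdef : DefinedOver K Y)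
    (h : ∀ x ∈ cone Y, ∀ D : Derivation ℤ ℂ ℂ, (∀ a ∈ K, D a = 0) → ∀ z : ℂ,
      (fun i => D (x i) + z * x i) ∈ cone Y) : IsLinearSpace Y := by
  classical
  obtain ⟨x, hx, hgen⟩ := exists_generic_point hY hKc hdef
  let W : Submodule ℂ (ι → ℂ) :=
    { carrier := {w | ∃ D : Derivation ℤ ℂ ℂ, (∀ a ∈ K, D a = 0) ∧ w = fun i => D (x i)}
      add_mem' := by
        rintro _ _ ⟨D, hD, rfl⟩ ⟨D', hD', rfl⟩
        refine ⟨D + D', fun a ha => ?_, ?_⟩
        · rw [Derivation.add_apply, hD a ha, hD' a ha, add_zero]
        · funext i
          rw [Derivation.add_apply]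
          rfl
      zero_mem' := ⟨0, fun a _ => rfl, rfl⟩
      smul_mem' := by
        rintro c _ ⟨D, hD, rfl⟩
        refine ⟨c • D, fun a ha => ?_, ?_⟩
        · rw [Derivation.smul_apply, hD a ha, smul_zero]
        · funext i
          rw [Derivation.smul_apply]
          rfl }
  have hWY : ∀ w ∈ W, w ∈ cone Y := by
    rintro _ ⟨D, hD, rfl⟩
    have h1 := h x hx D hD 0
    simpa using h1
  have hup : ∀ (F : MvPolynomial ι K) (y : ι → ℂ) (i : ι), eval y (pderiv i (up F)) =
      aeval y (pderiv i F) := by
    intro F y i
    rw [pderiv_map, ← eval_up_eq_aeval]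
  have hxW : x ∈ W := by
    obtain ⟨D, hD, hDx⟩ := exists_der_tangent (K := K) x x (fun F hF => by
      have h1 := deriv_line (up F) x x (fun t => by
        have h2 := smul_mem_cone hx (1 + t)
        have h3 : (fun i => x i + t * x i) = (1 + t) • x := by
          funext i
          simp only [Pi.smul_apply, smul_eq_mul]
          ring
        rw [h3]
        exact mem_vIdeal.1 (hgen F hF) _ h2)
      simpa only [hup] using h1)
    exact ⟨D, hD, funext fun i => (hDx i).symm⟩
  have hst : Stable K W := by
    rintro D' hD' _ ⟨D, hD, rfl⟩
    obtain ⟨D'', hD'', h''⟩ := exists_der_tangent (K := K) x (fun i => D' (D (x i))) (fun F hF => by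
      -- the second derivative
      have h1 : ∑ i, aeval x (pderiv i F) * D (x i) = 0 := by
        rw [← der_aeval hD, hF, map_zero]
      have h2 : D' (∑ i, aeval x (pderiv i F) * D (x i)) = 0 := by rw [h1, map_zero]
      rw [map_sum] at h2
      simp only [Derivation.leibniz, smul_eq_mul, Finset.sum_add_distrib, der_aeval hD'] at h2
      -- the polynomial of the inner derivative
      have h3 : ∑ j, eval x (pderiv j (∑ i, C (D (x i)) * pderiv i (up F))) * D' (x j) = 0 := by
        apply deriv_line
        intro t
        have h4 := deriv_line (up F) (fun i => x i + t * D' (x i)) (fun i => D (x i)) (fun s => by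
          have h5 := h x hx (s • D + t • D') (fun a ha => by
            rw [Derivation.add_apply, Derivation.smul_apply, Derivation.smul_apply, hD a ha, hD' a ha,
              smul_zero, smul_zero, add_zero]) 1
          have h6 : (fun i => x i + t * D' (x i) + s * D (x i)) =
              fun i => (s • D + t • D') (x i) + 1 * x i := by
            funext i
            rw [Derivation.add_apply, Derivation.smul_apply, Derivation.smul_apply, smul_eq_mul,
              smul_eq_mul]
            ring
          rw [h6]
          exact mem_vIdeal.1 (hgen F hF) _ h5)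
        rw [map_sum, ← h4]
        refine Finset.sum_congr rfl fun i _ => ?_
        rw [map_mul, eval_C, mul_comm]
      have h4 : ∑ j, eval x (pderiv j (∑ i, C (D (x i)) * pderiv i (up F))) * D' (x j) =
          ∑ i, D (x i) * ∑ j, aeval x (pderiv j (pderiv i F)) * D' (x j) := by
        have h5 : ∀ j, eval x (pderiv j (∑ i, C (D (x i)) * pderiv i (up F))) =
            ∑ i, D (x i) * aeval x (pderiv j (pderiv i F)) := by
          intro j
          rw [map_sum, map_sum]
          refine Finset.sum_congr rfl fun i _ => ?_
          rw [pderiv_C_mul, map_mul, eval_C, pderiv_map, hup]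
        simp only [h5, Finset.sum_mul, Finset.mul_sum]
        rw [Finset.sum_comm]
        exact Finset.sum_congr rfl fun i _ => Finset.sum_congr rfl fun j _ => by ring
      rw [h4] at h3
      rw [h3, add_zero] at h2
      exact h2)
    exact ⟨D'', hD'', funext fun i => (h'' i).symm⟩
  refine ⟨W, fun p => ?_⟩
  rw [Projectivization.submodule_eq, Submodule.span_singleton_le_iff_mem]
  constructor
  · intro hp
    by_contra hno
    obtain ⟨a, ha1, ha2⟩ := stable_separate hK hst hno
    apply ha2
    have h1 : aeval x (linForm a) = 0 := by
      rw [← eval_up_eq_aeval, eval_linForm]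
      exact ha1 x hxW
    have h2 := mem_vIdeal.1 (hgen _ h1) p.rep (rep_mem_cone.2 hp)
    rw [eval_linForm] at h2
    exact h2
  · intro hp
    exact rep_mem_cone.1 (hWY _ hp)

end Pool.Agent.Lib.MP_e005b4_ag
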