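import Mathlib

/-!
# Tangent tensors of rank two
-/

set_option autoImplicit false

namespace Pool.Agent.Lib.MP_e005b4_ag

/-- If `y ⊗ D' + D ⊗ y' + l y ⊗ y'` is a sum `a ⊗ a' + b ⊗ b'` then there are points `z y + D`,
`z' y' + D'` proportional to `a`, `b'` or to `b`, `a'`, with `z + z' = l`. -/
theorem two_slot {I J : Type} (y D : I → ℂ) (y' D' : J → ℂ) (l : ℂ) (a b : I → ℂ) (a' b' : J → ℂ)
    (h : ∀ i j, a i * a' j + b i * b' j = y i * D' j + D i * y' j + l * y i * y' j)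
    (i0 i1 : I) (h0 : y i0 * D i1 - y i1 * D i0 ≠ 0) (j0 j1 : J)
    (h1 : y' j0 * D' j1 - y' j1 * D' j0 ≠ 0) :
    ∃ z z' c c' : ℂ, z + z' = l ∧
      (((∀ i, z * y i + D i = c * a i) ∧ ∀ j, z' * y' j + D' j = c' * b' j) ∨
        ((∀ i, z * y i + D i = c * b i) ∧ ∀ j, z' * y' j + D' j = c' * a' j)) := by
  obtain ⟨E, hE⟩ : ∃ E : ℂ, E = y' j0 * D' j1 - y' j1 * D' j0 := ⟨_, rfl⟩
  obtain ⟨E0, hE0⟩ : ∃ E0 : ℂ, E0 = y i0 * D i1 - y i1 * D i0 := ⟨_, rfl⟩
  rw [← hE] at h1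
  rw [← hE0] at h0
  -- the coordinates of `a'` and `b'`
  obtain ⟨p, hp⟩ : ∃ p : ℂ, p = (a' j0 * D' j1 - a' j1 * D' j0) / E := ⟨_, rfl⟩
  obtain ⟨q, hq⟩ : ∃ q : ℂ, q = (y' j0 * a' j1 - y' j1 * a' j0) / E := ⟨_, rfl⟩
  obtain ⟨P, hP⟩ : ∃ P : ℂ, P = (b' j0 * D' j1 - b' j1 * D' j0) / E := ⟨_, rfl⟩
  obtain ⟨Q, hQ⟩ : ∃ Q : ℂ, Q = (y' j0 * b' j1 - y' j1 * b' j0) / E := ⟨_, rfl⟩
  have e1 : ∀ i, a i * p + b i * P = D i + l * y i := by
    intro i
    rw [hp, hP]
    field_simp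
    linear_combination D' j1 * h i j0 - D' j0 * h i j1 + (-(D i) - l * y i) * hE
  have e2 : ∀ i, a i * q + b i * Q = y i := by
    intro i
    rw [hq, hQ]
    field_simp
    linear_combination y' j0 * h i j1 - y' j1 * h i j0 - (y i) * hE
  obtain ⟨δ, hδ⟩ : ∃ δ : ℂ, δ = p * Q - q * P := ⟨_, rfl⟩
  have ha : ∀ i, δ * a i = Q * (D i + l * y i) - P * y i := by
    intro i
    rw [hδ]
    linear_combination Q * e1 i - P * e2 i
  have hb : ∀ i, δ * b i = p * y i - q * (D i + l * y i) := by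
    intro i
    rw [hδ]
    linear_combination p * e2 i - q * e1 i
  have hδ0 : δ ≠ 0 := by
    intro h2
    apply h0
    -- `E0` is `-δ` times the minor of `a` and `b`
    have h3 : E0 = -δ * (a i0 * b i1 - a i1 * b i0) := by
      rw [hE0, hδ]
      linear_combination (-(D i1 + l * y i1)) * e2 i0 - (a i0 * q + b i0 * Q) * e1 i1 +
        (D i0 + l * y i0) * e2 i1 + (a i1 * q + b i1 * Q) * e1 i0
    rw [h3, h2]
    ring
  -- the vectors `a'` and `b'`
  have f1 : ∀ j, (Q * l - P) * a' j + (p - q * l) * b' j = δ * (D' j + l * y' j) := by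
    intro j
    apply mul_left_cancel₀ h0
    rw [hE0]
    linear_combination δ * (D i1 * h i0 j - D i0 * h i1 j) - a' j * (D i1 * ha i0 - D i0 * ha i1) -
      b' j * (D i1 * hb i0 - D i0 * hb i1)
  have f2 : ∀ j, Q * a' j - q * b' j = δ * y' j := by
    intro j
    apply mul_left_cancel₀ h0
    rw [hE0]
    linear_combination δ * (y i0 * h i1 j - y i1 * h i0 j) - a' j * (y i0 * ha i1 - y i1 * ha i0) -
      b' j * (y i0 * hb i1 - y i1 * hb i0)
  have g1 : ∀ j, b' j = Q * D' j + P * y' j := by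
    intro j
    apply mul_left_cancel₀ hδ0
    linear_combination Q * f1 j - (Q * l - P) * f2 j + b' j * hδ
  have g2 : ∀ j, a' j = q * D' j + p * y' j := by
    intro j
    apply mul_left_cancel₀ hδ0
    linear_combination q * f1 j + (p - q * l) * f2 j + a' j * hδ
  by_cases hQ0 : Q = 0
  · have hq0 : q ≠ 0 := by
      intro h2
      apply hδ0
      rw [hδ, hQ0, h2]
      ring
    refine ⟨l - p / q, p / q, -δ / q, 1 / q, by ring, Or.inr ⟨fun i => ?_, fun j => ?_⟩⟩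
    · field_simp
      linear_combination hb i
    · field_simp
      linear_combination -(g2 j)
  · refine ⟨l - P / Q, P / Q, δ / Q, 1 / Q, by ring, Or.inl ⟨fun i => ?_, fun j => ?_⟩⟩
    · field_simp
      linear_combination -(ha i)
    · field_simp
      linear_combination -(g1 j)

end Pool.Agent.Lib.MP_e005b4_ag
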