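import Pool.Agent.Lib.MP_e005b4_ag.Ver.Lin
import Pool.Agent.Lib.MP_e005b4_ag.Ver.TwoSlot
import Pool.Agent.Lib.MP_e005b4_ag.Sec.Var

/-!
# Segre-Veronese images of products of varieties
-/

set_option autoImplicit false

namespace Pool.Agent.Lib.MP_e005b4_ag

open MvPolynomial
open scoped LinearAlgebra.Projectivization

set_option linter.unusedSectionVars false

variable {k : ℕ} {n : Fin k → ℕ}

/-- The product tensor with the vector `y (c s)` in the slot `s`. -/
def tens {m : ℕ} (c : Fin m → Fin k) (y : ∀ j, Fin (n j) → ℂ) : (∀ s, Fin (n (c s))) → ℂ :=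
  fun α => ∏ s, y (c s) (α s)

/-- The Segre-Veronese image of the product of the varieties `Y j`: the points with coordinates
`∏ s, y (c s) (α s)` for vectors `y j` of the cones over `Y j`. The factor `Y j` is embedded by the
forms of degree the number of slots `s` with `c s = j`. -/
def segVer {m : ℕ} (c : Fin m → Fin k) (Y : ∀ j, Set (PSpace (Fin (n j)))) :
    Set (PSpace (∀ s, Fin (n (c s)))) :=
  {p | ∃ y : ∀ j, Fin (n j) → ℂ, (∀ j, y j ∈ cone (Y j)) ∧ ∀ α, p.rep α = ∏ s, y (c s) (α s)}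

theorem mem_cone_segVer {m : ℕ} (hm : 0 < m) {c : Fin m → Fin k} {Y : ∀ j, Set (PSpace (Fin (n j)))}
    {w : (∀ s, Fin (n (c s))) → ℂ} :
    w ∈ cone (segVer c Y) ↔ ∃ y : ∀ j, Fin (n j) → ℂ, (∀ j, y j ∈ cone (Y j)) ∧
      ∀ α, w α = ∏ s, y (c s) (α s) := by
  classical
  refine mem_cone_setOf (P := fun w => ∃ y : ∀ j, Fin (n j) → ℂ, (∀ j, y j ∈ cone (Y j)) ∧
      ∀ α : ∀ s, Fin (n (c s)), w α = ∏ s, y (c s) (α s)) ?_ ?_
  · refine ⟨fun j => 0, fun j => zero_mem_cone _, fun α => ?_⟩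
    exact (Finset.prod_eq_zero (Finset.mem_univ ⟨0, hm⟩) rfl).symm
  · rintro a w ⟨y, hy, hw⟩
    obtain ⟨j0, hj0⟩ : ∃ j0, j0 = c ⟨0, hm⟩ := ⟨_, rfl⟩
    obtain ⟨d, hd⟩ : ∃ d, d = (Finset.univ.filter fun s => c s = j0).card := ⟨_, rfl⟩
    have hd0 : 0 < d := by
      rw [hd, Finset.card_pos]
      exact ⟨⟨0, hm⟩, by simp [hj0]⟩
    obtain ⟨μ, hμ⟩ := IsAlgClosed.exists_pow_nat_eq a hd0
    refine ⟨fun j => (if j = j0 then μ else 1) • y j, fun j => smul_mem_cone (hy j) _, fun α => ?_⟩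
    simp only [Pi.smul_apply, smul_eq_mul, hw]
    rw [Finset.prod_mul_distrib, Finset.prod_ite, Finset.prod_const, Finset.prod_const_one, mul_one,
      ← hd, hμ]

theorem segVer_nonempty {m : ℕ} (hm : 0 < m) {c : Fin m → Fin k}
    {Y : ∀ j, Set (PSpace (Fin (n j)))} (h : ∀ j, (Y j).Nonempty) : (segVer c Y).Nonempty := by
  classical
  choose p hp using h
  have hex : ∀ j, ∃ i, (p j).rep i ≠ 0 := fun j => Function.ne_iff.mp (p j).rep_nonzero
  choose i hi using hex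
  have hw : (fun α : ∀ s, Fin (n (c s)) => ∏ s, (p (c s)).rep (α s)) ≠ 0 := by
    intro h
    have h1 := congrFun h (fun s => i (c s))
    rw [Pi.zero_apply, Finset.prod_eq_zero_iff] at h1
    obtain ⟨s, -, hs⟩ := h1
    exact hi _ hs
  refine ⟨Projectivization.mk ℂ _ hw, ?_⟩
  rw [← mem_cone_iff hw, mem_cone_segVer hm]
  exact ⟨fun j => (p j).rep, fun j => rep_mem_cone.2 (hp j), fun α => rfl⟩

/-- If ranks agree with border ranks then tangent vectors are sums of two vectors of the cone. -/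
theorem tangent_sum {ι : Type} [Fintype ι] {X : Set (PSpace ι)} (hne : X.Nonempty)
    (hprop : ∀ p, xRank X p = xBorderRank X p) {K : Subfield ℂ} (hdef : DefinedOver K X)
    {D : Derivation ℤ ℂ ℂ} (hD : ∀ a ∈ K, D a = 0) {x : ι → ℂ} (hx : x ∈ cone X) (l : ℂ) :
    ∃ u ∈ cone X, ∃ v ∈ cone X, ∀ i, D (x i) + l * x i = u i + v i := by
  by_cases hw : (fun i => D (x i) + l * x i) = 0
  · refine ⟨0, zero_mem_cone _, 0, zero_mem_cone _, fun i => ?_⟩
    have h1 := congrFun hw i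
    simpa using h1
  · have h1 : Projectivization.mk ℂ _ hw ∈ secantVariety X 2 := by
      intro F d hF hv
      rw [eval_rep_iff hF]
      exact eval_tangent hdef hD hx hF (vanish_sums hne hF hv) l
    have h2 : xRank X (Projectivization.mk ℂ _ hw) ≤ (2 : ℕ) := by
      rw [hprop]
      exact (xBorderRank_le_iff hne).2 h1
    obtain ⟨z, hz, hsum⟩ := exists_sum_of_mem_secantSet ((xRank_le_iff hne).1 h2)
    obtain ⟨c, hc, hrep⟩ := rep_eq _ hw
    refine ⟨c⁻¹ • z 0, smul_mem_cone (hz 0) _, c⁻¹ • z 1, smul_mem_cone (hz 1) _, fun i => ?_⟩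
    have h3 := congrFun (hrep.symm.trans hsum) i
    rw [Fin.sum_univ_two] at h3
    simp only [Pi.smul_apply, Pi.add_apply, smul_eq_mul] at h3 ⊢
    field_simp
    linear_combination h3

theorem tens_cons {m : ℕ} (c : Fin (m + 1) → Fin k) (y : ∀ j, Fin (n j) → ℂ) (i : Fin (n (c 0)))
    (β : ∀ t : Fin m, Fin (n (c t.succ))) :
    tens c y (Fin.cons (α := fun s => Fin (n (c s))) i β) =
      y (c 0) i * tens (fun t => c t.succ) y β := by
  unfold tens
  rw [Fin.prod_univ_succ]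
  rfl

/-- A vector moves in the projective space in the direction of a derivation. -/
def Moves {I : Type} (D : Derivation ℤ ℂ ℂ) (y : I → ℂ) : Prop :=
  ∃ i i', y i * D (y i') - y i' * D (y i) ≠ 0

theorem tens_moves {r : ℕ} (c : Fin (r + 1) → Fin k) (y : ∀ j, Fin (n j) → ℂ)
    (D : Derivation ℤ ℂ ℂ) (h : ∀ j, Moves D (y j)) : Moves D (tens c y) := by
  obtain ⟨i, i', hi⟩ := h (c 0)
  have hne : ∀ j, ∃ l, y j l ≠ 0 := by
    intro j
    obtain ⟨a, b, hab⟩ := h j
    by_contra hno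
    push Not at hno
    apply hab
    rw [hno a, hno b]
    ring
  choose l hl using hne
  refine ⟨Fin.cons (α := fun s => Fin (n (c s))) i (fun t => l (c t.succ)),
    Fin.cons (α := fun s => Fin (n (c s))) i' (fun t => l (c t.succ)), ?_⟩
  rw [tens_cons, tens_cons]
  have hU : tens (fun t => c t.succ) y (fun t => l (c t.succ)) ≠ 0 := by
    unfold tens
    rw [Finset.prod_ne_zero_iff]
    exact fun t _ => hl _
  generalize tens (fun t => c t.succ) y (fun t => l (c t.succ)) = U at hU ⊢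
  rw [Derivation.leibniz, Derivation.leibniz]
  have h1 : y (c 0) i * U * (y (c 0) i' • D U + U • D (y (c 0) i')) -
      y (c 0) i' * U * (y (c 0) i • D U + U • D (y (c 0) i)) =
      U ^ 2 * (y (c 0) i * D (y (c 0) i') - y (c 0) i' * D (y (c 0) i)) := by
    simp only [smul_eq_mul]
    ring
  rw [h1]
  exact mul_ne_zero (pow_ne_zero _ hU) hi

/-- The consequence of the equality of ranks for the first slot. -/
theorem slot_split {m : ℕ} {c : Fin (m + 2) → Fin k} {Y : ∀ j, Set (PSpace (Fin (n j)))}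
    (hne : ∀ j, (Y j).Nonempty)
    (hprop : ∀ p, xRank (segVer c Y) p = xBorderRank (segVer c Y) p) {K : Subfield ℂ}
    (hdef : DefinedOver K (segVer c Y)) {D : Derivation ℤ ℂ ℂ} (hD : ∀ a ∈ K, D a = 0)
    {y : ∀ j, Fin (n j) → ℂ} (hy : ∀ j, y j ∈ cone (Y j)) (hmov : ∀ j, Moves D (y j)) (l : ℂ) :
    ∃ z z' : ℂ, z + z' = l ∧ (∃ a ∈ cone (Y (c 0)), ∀ i, z * y (c 0) i + D (y (c 0) i) = a i) ∧
      ∃ b : ∀ j, Fin (n j) → ℂ, (∀ j, b j ∈ cone (Y j)) ∧ ∃ e : ℂ, ∀ β,
        z' * tens (fun t => c (Fin.succ t)) y β + D (tens (fun t => c (Fin.succ t)) y β) =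
          e * tens (fun t => c (Fin.succ t)) b β := by
  have hx : tens c y ∈ cone (segVer c Y) := by
    rw [mem_cone_segVer (by omega)]
    exact ⟨y, hy, fun α => rfl⟩
  obtain ⟨u, hu, v, hv, huv⟩ := tangent_sum (segVer_nonempty (by omega) hne) hprop hdef hD hx l
  rw [mem_cone_segVer (by omega)] at hu hv
  obtain ⟨a, ha, hau⟩ := hu
  obtain ⟨b, hb, hbv⟩ := hv
  have hau' : ∀ α, u α = tens c a α := hau
  have hbv' : ∀ α, v α = tens c b α := hbv
  obtain ⟨i0, i1, h0⟩ := hmov (c 0)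
  obtain ⟨j0, j1, h1⟩ := tens_moves (fun t => c (Fin.succ t)) y D hmov
  obtain ⟨z, z', e, e', hz, h2⟩ := two_slot (y (c 0)) (fun i => D (y (c 0) i))
    (tens (fun t => c (Fin.succ t)) y) (fun β => D (tens (fun t => c (Fin.succ t)) y β)) l
    (a (c 0)) (b (c 0)) (tens (fun t => c (Fin.succ t)) a) (tens (fun t => c (Fin.succ t)) b)
    (fun i β => by
      have h3 := huv (Fin.cons (α := fun s => Fin (n (c s))) i β)
      rw [hau', hbv', tens_cons, tens_cons, tens_cons, Derivation.leibniz, smul_eq_mul,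
        smul_eq_mul] at h3
      linear_combination -h3) i0 i1 h0 j0 j1 h1
  rcases h2 with ⟨h2, h3⟩ | ⟨h2, h3⟩
  · exact ⟨z, z', hz, ⟨e • a (c 0), smul_mem_cone (ha _) _, h2⟩, b, hb, e', h3⟩
  · exact ⟨z, z', hz, ⟨e • b (c 0), smul_mem_cone (hb _) _, h2⟩, a, ha, e', h3⟩

end Pool.Agent.Lib.MP_e005b4_ag
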