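import Pool.Agent.Lib.MP_e005b4_ag.Ver.Seg

/-!
# Segre-Veronese images: the necessary condition
-/

set_option autoImplicit false

namespace Pool.Agent.Lib.MP_e005b4_ag

open MvPolynomial
open scoped LinearAlgebra.Projectivization

set_option linter.unusedSectionVars false

variable {k : ℕ} {n : Fin k → ℕ}

theorem avoid {k : ℕ} (Φ : Fin k → MvPolynomial (Fin k) ℂ) (h : ∀ j, ∃ t, eval t (Φ j) ≠ 0) :
    ∃ t, ∀ j, eval t (Φ j) ≠ 0 := by
  by_contra hno
  push Not at hno
  have h1 : ∏ j, Φ j = 0 := by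
    apply MvPolynomial.funext
    intro t
    obtain ⟨j, hj⟩ := hno t
    rw [map_prod, map_zero]
    exact Finset.prod_eq_zero (Finset.mem_univ j) hj
  rw [Finset.prod_eq_zero_iff] at h1
  obtain ⟨j, -, hj⟩ := h1
  obtain ⟨t, ht⟩ := h j
  rw [hj, map_zero] at ht
  exact ht rfl

theorem der_sum_apply {κ : Type} (s : Finset κ) (D : κ → Derivation ℤ ℂ ℂ) (a : ℂ) :
    (∑ j ∈ s, D j) a = ∑ j ∈ s, D j a := by
  classical
  induction s using Finset.induction_on with
  | empty => rfl
  | insert j s hj ih => rw [Finset.sum_insert hj, Finset.sum_insert hj, Derivation.add_apply, ih]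

/-- Derivations killing `K`, combined with coefficients. -/
theorem comb_kills {K : Subfield ℂ} {k : ℕ} {D : Fin k → Derivation ℤ ℂ ℂ}
    (hD : ∀ j, ∀ a ∈ K, D j a = 0) (t : Fin k → ℂ) : ∀ a ∈ K, (∑ j, t j • D j) a = 0 := by
  intro a ha
  rw [der_sum_apply]
  refine Finset.sum_eq_zero fun j _ => ?_
  rw [Derivation.smul_apply, hD j a ha, smul_zero]

theorem comb_apply {k : ℕ} (D : Fin k → Derivation ℤ ℂ ℂ) (t : Fin k → ℂ) (a : ℂ) :
    (∑ j, t j • D j) a = ∑ j, t j * D j a := by
  rw [der_sum_apply]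
  rfl

/-- The points of a variety with at least two points move. -/
theorem exists_moves {ι : Type} [Fintype ι] {Y : Set (PSpace ι)} (hY : IsProjectiveVariety Y)
    (hnt : Y.Nontrivial) {K : Subfield ℂ} (hK : Closed K) (hKc : (K : Set ℂ).Countable)
    (hdef : DefinedOver K Y) :
    ∃ x ∈ cone Y, ∃ D : Derivation ℤ ℂ ℂ, (∀ a ∈ K, D a = 0) ∧ Moves D x := by
  classical
  obtain ⟨x, hx, hgen⟩ := exists_generic_point hY hKc hdef
  refine ⟨x, hx, ?_⟩
  by_contra hno
  push Not at hno
  have hno' : ∀ D : Derivation ℤ ℂ ℂ, (∀ a ∈ K, D a = 0) → ∀ i i', x i * D (x i') = x i' * D (x i) := by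
    intro D hD i i'
    by_contra h
    exact hno D hD ⟨i, i', sub_ne_zero.2 h⟩
  -- some coordinate does not vanish
  have hex : ∃ l, x l ≠ 0 := by
    by_contra h
    push Not at h
    obtain ⟨p, hp⟩ := hY.2.1
    apply p.rep_nonzero
    funext i
    have h1 := hgen (MvPolynomial.X i) (by rw [aeval_X]; exact h i)
    have h2 := mem_vIdeal.1 h1 p.rep (rep_mem_cone.2 hp)
    rw [up, map_X, eval_X] at h2
    exact h2
  obtain ⟨l, hl⟩ := hex
  have hK' : ∀ i, x i / x l ∈ K := by
    intro i
    by_contra hi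
    obtain ⟨D, hD, hDi⟩ := exists_der hK hi
    have h1 := hno' D hD l i
    have h2 : x i = (x i / x l) * x l := by field_simp
    have h3 : D (x i) = (x i / x l) * D (x l) + x l := by
      conv_lhs => rw [h2]
      rw [Derivation.leibniz, hDi, smul_eq_mul, smul_eq_mul, mul_one]
    rw [h3] at h1
    have h4 : x l * x l = 0 := by
      have h5 : x i / x l * x l = x i := by field_simp
      linear_combination h1 - D (x l) * h5
    exact hl (mul_self_eq_zero.1 h4)
  -- all points of `Y` are proportional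
  have hpt : ∀ v ∈ cone Y, ∀ i, v i = (x i / x l) * v l := by
    intro v hv i
    have h1 := hgen (MvPolynomial.X i - MvPolynomial.C ⟨x i / x l, hK' i⟩ * MvPolynomial.X l) (by
      rw [map_sub, map_mul, aeval_X, aeval_X, aeval_C]
      change x i - x i / x l * x l = 0
      field_simp
      ring)
    have h2 := mem_vIdeal.1 h1 v hv
    rw [up, map_sub, map_sub, map_mul, map_mul, map_X, map_X, map_C, eval_X, eval_X, eval_C] at h2
    exact sub_eq_zero.1 h2
  obtain ⟨p, hp, q, hq, hpq⟩ := hnt
  apply hpq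
  have hp1 := hpt p.rep (rep_mem_cone.2 hp)
  have hq1 := hpt q.rep (rep_mem_cone.2 hq)
  have hql : q.rep l ≠ 0 := by
    intro h
    apply q.rep_nonzero
    funext i
    rw [hq1 i, h, mul_zero, Pi.zero_apply]
  rw [← Projectivization.mk_rep p, ← Projectivization.mk_rep q, Projectivization.mk_eq_mk_iff']
  refine ⟨p.rep l / q.rep l, ?_⟩
  funext i
  rw [Pi.smul_apply, smul_eq_mul, hp1 i, hq1 i]
  field_simp

/-- Simultaneously moving points of several varieties. -/
theorem exists_all_move {Y : ∀ j, Set (PSpace (Fin (n j)))} (hY : ∀ j, IsProjectiveVariety (Y j))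
    (hnt : ∀ j, (Y j).Nontrivial) {K : Subfield ℂ} (hK : Closed K) (hKc : (K : Set ℂ).Countable)
    (hdef : ∀ j, DefinedOver K (Y j)) :
    ∃ y : ∀ j, Fin (n j) → ℂ, (∀ j, y j ∈ cone (Y j)) ∧
      ∃ D : Derivation ℤ ℂ ℂ, (∀ a ∈ K, D a = 0) ∧ ∀ j, Moves D (y j) := by
  classical
  choose y hy D hD i i' hi using fun j => exists_moves (hY j) (hnt j) hK hKc (hdef j)
  obtain ⟨t, ht⟩ := avoid (fun j => ∑ a, C (y j (i j) * D a (y j (i' j)) -
    y j (i' j) * D a (y j (i j))) * X a) (fun j => ⟨Pi.single j 1, by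
      rw [map_sum, Finset.sum_eq_single j]
      · rw [map_mul, eval_C, eval_X, Pi.single_eq_same, mul_one]
        exact hi j
      · intro a _ ha
        rw [map_mul, eval_X, Pi.single_eq_of_ne ha, mul_zero]
      · intro h
        exact absurd (Finset.mem_univ _) h⟩)
  refine ⟨y, hy, ∑ a, t a • D a, comb_kills hD t, fun j => ⟨i j, i' j, ?_⟩⟩
  have h1 := ht j
  rw [map_sum] at h1
  simp only [map_mul, eval_C, eval_X] at h1
  have h2 : y j (i j) * (∑ a, t a • D a) (y j (i' j)) - y j (i' j) * (∑ a, t a • D a) (y j (i j)) =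
      ∑ a, (y j (i j) * D a (y j (i' j)) - y j (i' j) * D a (y j (i j))) * t a := by
    rw [comb_apply, comb_apply, Finset.mul_sum, Finset.mul_sum, ← Finset.sum_sub_distrib]
    exact Finset.sum_congr rfl fun a _ => by ring
  rw [h2]
  exact h1

/-- At least three slots are impossible. -/
theorem not_three {m : ℕ} {c : Fin (m + 3) → Fin k} {Y : ∀ j, Set (PSpace (Fin (n j)))}
    (hY : ∀ j, IsProjectiveVariety (Y j)) (hnt : ∀ j, (Y j).Nontrivial)
    (hprop : ∀ p, xRank (segVer c Y) p = xBorderRank (segVer c Y) p) {K : Subfield ℂ}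
    (hK : Closed K) (hKc : (K : Set ℂ).Countable) (hdef : DefinedOver K (segVer c Y))
    (hdefY : ∀ j, DefinedOver K (Y j)) : False := by
  obtain ⟨y, hy, D, hD, hmov⟩ := exists_all_move hY hnt hK hKc hdefY
  obtain ⟨z, z', -, -, b, -, e, h1⟩ := slot_split (fun j => (hY j).2.1) hprop hdef hD hy hmov 0
  obtain ⟨i, i', hi⟩ := hmov (c (Fin.succ 0))
  obtain ⟨γ, γ', hγ⟩ := tens_moves (r := m) (fun t => c (Fin.succ (Fin.succ t))) y D hmov
  have h2 : ∀ (i : Fin (n (c (Fin.succ 0)))) (γ : ∀ t : Fin (m + 1), Fin (n (c (Fin.succ (Fin.succ t))))),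
      y (c (Fin.succ 0)) i * (z' * tens (fun t => c (Fin.succ (Fin.succ t))) y γ +
        D (tens (fun t => c (Fin.succ (Fin.succ t))) y γ)) +
        D (y (c (Fin.succ 0)) i) * tens (fun t => c (Fin.succ (Fin.succ t))) y γ =
      e * (b (c (Fin.succ 0)) i * tens (fun t => c (Fin.succ (Fin.succ t))) b γ) := by
    intro i γ
    have h3 := h1 (Fin.cons (α := fun t => Fin (n (c (Fin.succ t)))) i γ)
    rw [tens_cons (fun t => c (Fin.succ t)), tens_cons (fun t => c (Fin.succ t)), Derivation.leibniz,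
      smul_eq_mul, smul_eq_mul] at h3
    linear_combination h3
  have e1 := h2 i γ
  have e2 := h2 i γ'
  have e3 := h2 i' γ
  have e4 := h2 i' γ'
  apply mul_ne_zero hi hγ
  generalize tens (fun t => c (Fin.succ (Fin.succ t))) y γ = S at *
  generalize tens (fun t => c (Fin.succ (Fin.succ t))) y γ' = S' at *
  generalize tens (fun t => c (Fin.succ (Fin.succ t))) b γ = B at *
  generalize tens (fun t => c (Fin.succ (Fin.succ t))) b γ' = B' at *
  generalize y (c (Fin.succ 0)) i = u at *
  generalize y (c (Fin.succ 0)) i' = u' at *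
  generalize b (c (Fin.succ 0)) i = v at *
  generalize b (c (Fin.succ 0)) i' = v' at *
  have e5 : (u * (z' * S + D S) + D u * S) * (u' * (z' * S' + D S') + D u' * S') =
      (u * (z' * S' + D S') + D u * S') * (u' * (z' * S + D S) + D u' * S) := by
    rw [e1, e2, e3, e4]
    ring
  linear_combination -e5

/-- The polynomial of the values along a line. -/
theorem line_poly {ι : Type} [Fintype ι] (F : MvPolynomial ι ℂ) (x v : ι → ℂ) :
    ∃ P : Polynomial ℂ, ∀ t : ℂ, P.eval t = eval (fun i => x i + t * v i) F := by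
  let q : ι → Polynomial ℂ := fun i => Polynomial.C (x i) + Polynomial.X * Polynomial.C (v i)
  refine ⟨MvPolynomial.aeval q F, fun t => ?_⟩
  have h2 := MvPolynomial.eval₂_comp_left (Polynomial.evalRingHom t) (algebraMap ℂ (Polynomial ℂ)) q F
  rw [MvPolynomial.aeval_def]
  rw [Polynomial.coe_evalRingHom] at h2
  rw [h2]
  have h3 : (Polynomial.evalRingHom t).comp (algebraMap ℂ (Polynomial ℂ)) = RingHom.id ℂ := by
    ext x
    simp
  rw [h3]
  have h4 : (Polynomial.eval t ∘ q) = fun i => x i + t * v i := by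
    funext i
    simp only [q, Function.comp_apply, Polynomial.eval_add, Polynomial.eval_mul, Polynomial.eval_C,
      Polynomial.eval_X]
  rw [h4]
  rfl

/-- Simultaneously bad tangent directions of several varieties which are not linear. -/
theorem exists_all_bad {Y : ∀ j, Set (PSpace (Fin (n j)))} (hY : ∀ j, IsProjectiveVariety (Y j))
    (hlin : ∀ j, ¬ IsLinearSpace (Y j)) {K : Subfield ℂ} (hK : Closed K)
    (hKc : (K : Set ℂ).Countable) (hdef : ∀ j, DefinedOver K (Y j)) :
    ∃ y : ∀ j, Fin (n j) → ℂ, (∀ j, y j ∈ cone (Y j)) ∧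
      ∃ D : Derivation ℤ ℂ ℂ, (∀ a ∈ K, D a = 0) ∧
        ∀ j, ∃ z : ℂ, ∃ F ∈ vIdeal (Y j), eval (fun i => D (y j i) + z * y j i) F ≠ 0 := by
  classical
  have h1 : ∀ j, ∃ x ∈ cone (Y j), ∃ D : Derivation ℤ ℂ ℂ, (∀ a ∈ K, D a = 0) ∧ ∃ z : ℂ,
      ∃ F ∈ vIdeal (Y j), eval (fun i => D (x i) + z * x i) F ≠ 0 := by
    intro j
    by_contra hno
    push Not at hno
    apply hlin j
    refine linear_of_tangents (hY j) hK hKc (hdef j) fun x hx D hD z => ?_
    exact mem_cone_of_vIdeal (hY j).1 (hY j).2.1 fun F hF => hno x hx D hD z F hF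
  choose y hy D hD z F hF hFz using h1
  obtain ⟨t, ht⟩ := avoid (fun j => bind₁ (fun i => C (z j * y j i) + ∑ a, C (D a (y j i)) * X a) (F j))
    (fun j => ⟨Pi.single j 1, by
      have h2 : eval (Pi.single j (1 : ℂ)) (bind₁ (fun i => C (z j * y j i) +
          ∑ a, C (D a (y j i)) * X a) (F j)) = eval (fun i => eval (Pi.single j (1 : ℂ))
            (C (z j * y j i) + ∑ a, C (D a (y j i)) * X a)) (F j) :=
        MvPolynomial.eval₂Hom_bind₁ (RingHom.id ℂ) _ _ _
      rw [h2]
      have h3 : (fun i => eval (Pi.single j (1 : ℂ)) (C (z j * y j i) + ∑ a, C (D a (y j i)) * X a)) =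
          fun i => D j (y j i) + z j * y j i := by
        funext i
        rw [map_add, eval_C, map_sum, Finset.sum_eq_single j]
        · rw [map_mul, eval_C, eval_X, Pi.single_eq_same, mul_one, add_comm]
        · intro a _ ha
          rw [map_mul, eval_X, Pi.single_eq_of_ne ha, mul_zero]
        · intro h
          exact absurd (Finset.mem_univ _) h
      rw [h3]
      exact hFz j⟩)
  refine ⟨y, hy, ∑ a, t a • D a, comb_kills hD t, fun j => ⟨z j, F j, hF j, ?_⟩⟩
  have h2 : eval t (bind₁ (fun i => C (z j * y j i) + ∑ a, C (D a (y j i)) * X a) (F j)) =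
      eval (fun i => eval t (C (z j * y j i) + ∑ a, C (D a (y j i)) * X a)) (F j) :=
    MvPolynomial.eval₂Hom_bind₁ (RingHom.id ℂ) _ _ _
  have h3 : (fun i => eval t (C (z j * y j i) + ∑ a, C (D a (y j i)) * X a)) =
      fun i => (∑ a, t a • D a) (y j i) + z j * y j i := by
    funext i
    rw [map_add, eval_C, map_sum, comb_apply, add_comm]
    congr 1
    refine Finset.sum_congr rfl fun a _ => ?_
    rw [map_mul, eval_C, eval_X, mul_comm]
  have h4 := ht j
  rw [h2, h3] at h4
  exact h4

/-- With two slots one of the varieties is linear. -/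
theorem two_linear {c : Fin 2 → Fin k} {Y : ∀ j, Set (PSpace (Fin (n j)))}
    (hY : ∀ j, IsProjectiveVariety (Y j))
    (hprop : ∀ p, xRank (segVer c Y) p = xBorderRank (segVer c Y) p) {K : Subfield ℂ}
    (hK : Closed K) (hKc : (K : Set ℂ).Countable) (hdef : DefinedOver K (segVer c Y))
    (hdefY : ∀ j, DefinedOver K (Y j)) : ∃ j, IsLinearSpace (Y j) := by
  by_contra hno
  push Not at hno
  obtain ⟨y, hy, D, hD, hbad⟩ := exists_all_bad hY hno hK hKc hdefY
  -- all vectors move
  have hmov : ∀ j, Moves D (y j) := by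
    intro j
    by_contra h
    have h0 : ∀ i i', y j i * D (y j i') = y j i' * D (y j i) := by
      intro i i'
      by_contra h'
      exact h ⟨i, i', sub_ne_zero.2 h'⟩
    obtain ⟨z, F, hF, hz⟩ := hbad j
    apply hz
    apply mem_vIdeal.1 hF
    by_cases hex : ∃ l, y j l ≠ 0
    · obtain ⟨l, hl⟩ := hex
      have h1 : (fun i => D (y j i) + z * y j i) = (D (y j l) / y j l + z) • y j := by
        funext i
        rw [Pi.smul_apply, smul_eq_mul]
        have h2 := h0 l i
        field_simp
        linear_combination h2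
      rw [h1]
      exact smul_mem_cone (hy j) _
    · push Not at hex
      have h1 : (fun i => D (y j i) + z * y j i) = 0 := by
        funext i
        rw [hex i, map_zero]
        simp
      rw [h1]
      exact zero_mem_cone _
  -- the sets of good parameters are finite
  have hfin : ∀ j, {z : ℂ | (fun i => z * y j i + D (y j i)) ∈ cone (Y j)}.Finite := by
    intro j
    obtain ⟨z, F, hF, hz⟩ := hbad j
    obtain ⟨P, hP⟩ := line_poly F (fun i => D (y j i)) (y j)
    have hP0 : P ≠ 0 := by
      intro h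
      apply hz
      rw [← hP, h, Polynomial.eval_zero]
    refine (Polynomial.finite_setOfPred_isRoot hP0).subset ?_
    intro w hw
    have h1 := mem_vIdeal.1 hF _ hw
    show P.eval w = 0
    rw [hP, ← h1]
    congr 2
    funext i
    ring
  -- every number is a sum
  have hsum : ∀ l : ℂ, ∃ z ∈ {z : ℂ | (fun i => z * y (c 0) i + D (y (c 0) i)) ∈ cone (Y (c 0))},
      ∃ z' ∈ {z : ℂ | (fun i => z * y (c 1) i + D (y (c 1) i)) ∈ cone (Y (c 1))}, z + z' = l := by
    intro l
    obtain ⟨z, z', hz, ⟨a, ha, h1⟩, b, hb, e, h2⟩ :=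
      slot_split (fun j => (hY j).2.1) hprop hdef hD hy hmov l
    refine ⟨z, ?_, z', ?_, hz⟩
    · show (fun i => z * y (c 0) i + D (y (c 0) i)) ∈ cone (Y (c 0))
      have h3 : (fun i => z * y (c 0) i + D (y (c 0) i)) = a := funext h1
      rw [h3]
      exact ha
    · show (fun i => z' * y (c 1) i + D (y (c 1) i)) ∈ cone (Y (c 1))
      have h3 : (fun i => z' * y (c 1) i + D (y (c 1) i)) = e • b (c 1) := by
        funext i
        have h4 := h2 (Fin.cons (α := fun t => Fin (n (c (Fin.succ t)))) i (fun t => t.elim0))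
        rw [tens_cons (fun t => c (Fin.succ t)), tens_cons (fun t => c (Fin.succ t))] at h4
        have h5 : ∀ u : ∀ j, Fin (n j) → ℂ, tens (fun t : Fin 0 => c (Fin.succ (Fin.succ t))) u
            (fun t => t.elim0) = 1 := by
          intro u
          unfold tens
          exact Finset.prod_of_isEmpty _
        rw [h5, h5, mul_one, mul_one] at h4
        exact h4
      rw [h3]
      exact smul_mem_cone (hb _) _
  have h1 : (Set.univ : Set ℂ).Finite := by
    refine ((hfin (c 0)).image2 (fun a b => a + b) (hfin (c 1))).subset ?_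
    intro l _
    obtain ⟨z, hz, z', hz', h⟩ := hsum l
    exact ⟨z, hz, z', hz', h⟩
  exact Set.infinite_univ h1

end Pool.Agent.Lib.MP_e005b4_ag
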